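import Mathlib

set_option autoImplicit false

namespace Pool.Agent.Results.MP_94c5d9_co.NotPolylog

open Finset

/-- A literal over the variables `x_0, ..., x_{n-1}`: the pair `(i, true)` is the variable `x_i` and
the pair `(i, false)` is its negation. -/
abbrev Literal (n : ℕ) : Type := Fin n × Bool

/-- The assignment `a` makes the literal `l` true. -/
def LitTrue {n : ℕ} (a : Fin n → Bool) (l : Literal n) : Prop := a l.1 = l.2

/-- Number of satisfying assignments of the DNF whose terms are the members of `F`
(an OR of terms, each term an AND of literals). -/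
noncomputable def dnfCount {n : ℕ} (F : List (List (Literal n))) : ℕ :=
  Nat.card {a : Fin n → Bool // ∃ T ∈ F, ∀ l ∈ T, LitTrue a l}

/-- Number of satisfying assignments of the CNF whose clauses are the members of `F`
(an AND of clauses, each clause an OR of literals). -/
noncomputable def cnfCount {n : ℕ} (F : List (List (Literal n))) : ℕ :=
  Nat.card {a : Fin n → Bool // ∀ T ∈ F, ∃ l ∈ T, LitTrue a l}

/-- `beta k` is the least number of terms (of a DNF) or clauses (of a CNF) of a formula, over any
number `n` of variables, with exactly `k` satisfying assignments. -/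
noncomputable def beta (k : ℕ) : ℕ :=
  sInf {s : ℕ | ∃ (n : ℕ) (F : List (List (Literal n))),
    F ≠ [] ∧ F.length = s ∧ (dnfCount F = k ∨ cnfCount F = k)}

/-- The block count of `k`: the number of maximal runs of ones in the binary expansion of `k`,
counted by their leading (most significant) positions. -/
noncomputable def bl (k : ℕ) : ℕ :=
  Set.ncard {i : ℕ | k.testBit i = true ∧ k.testBit (i + 1) = false}

/-! ### Counting assignments -/

lemma card_agree {n : ℕ} (V : Finset (Fin n)) (a₀ : Fin n → Bool) :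
    (Finset.univ.filter (fun a : Fin n → Bool => ∀ i ∈ V, a i = a₀ i)).card = 2 ^ (n - V.card) := by
  classical
  have h : (Finset.univ.filter (fun a : Fin n → Bool => ∀ i ∈ V, a i = a₀ i))
      = Fintype.piFinset (fun i => if i ∈ V then ({a₀ i} : Finset Bool) else Finset.univ) := by
    ext a
    simp only [Finset.mem_filter, Finset.mem_univ, true_and, Fintype.mem_piFinset]
    constructor
    · intro h i
      by_cases hi : i ∈ V
      · simp [hi, h i hi]
      · simp [hi]
    · intro h i hi
      have := h i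
      simpa [hi] using this
  rw [h, Fintype.card_piFinset]
  have h2 : ∀ i : Fin n, (if i ∈ V then ({a₀ i} : Finset Bool) else Finset.univ).card
      = if i ∈ V then 1 else 2 := by
    intro i
    by_cases hi : i ∈ V <;> simp [hi]
  simp only [h2]
  rw [Finset.prod_ite]
  simp only [Finset.prod_const_one, one_mul, Finset.prod_const]
  congr 1
  have : (Finset.univ.filter (fun i => i ∉ V)) = Vᶜ := by
    ext i; simp
  rw [this, Finset.card_compl, Fintype.card_fin]

/-! ### The boundary lemma -/

lemma boundary {ι : Type*} (k E w : ℕ) (hE : 1 ≤ E)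
    (hbit : k.testBit (E - 1) ≠ k.testBit E) (A : Finset ι) (ε : ι → ℤ) (e : ι → ℕ)
    (hε : ∀ t ∈ A, |ε t| ≤ 1) (hcard : A.card ≤ 2 ^ w)
    (hk : (k : ℤ) = ∑ t ∈ A, ε t * 2 ^ (e t)) :
    ∃ t ∈ A, ε t ≠ 0 ∧ E ≤ e t + w + 1 ∧ e t ≤ E := by
  classical
  by_contra hcon
  push Not at hcon
  apply hbit
  -- split the sum
  set H : ℤ := ∑ t ∈ A.filter (fun t => E < e t), ε t * 2 ^ (e t) with hH
  set L : ℤ := ∑ t ∈ A.filter (fun t => ¬ E < e t), ε t * 2 ^ (e t) with hL
  have hsum : (k : ℤ) = H + L := by
    rw [hk, hH, hL, Finset.sum_filter_add_sum_filter_not]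
  have hdvd : (2 : ℤ) ^ (E + 1) ∣ H := by
    apply Finset.dvd_sum
    intro t ht
    have : E + 1 ≤ e t := (Finset.mem_filter.mp ht).2
    exact Dvd.dvd.mul_left (pow_dvd_pow 2 this) _
  have hLabs : |L| * 4 ≤ 2 ^ E := by
    by_cases hEw : E < w + 2
    · -- then there is no t with nonzero coefficient
      have : L = 0 := by
        apply Finset.sum_eq_zero
        intro t ht
        obtain ⟨htA, hte⟩ := Finset.mem_filter.mp ht
        by_cases h0 : ε t = 0
        · simp [h0]
        · exfalso
          have := hcon t htA h0 (by omega)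
          omega
      rw [this]
      positivity
    · push Not at hEw
      have h1 : |L| ≤ ∑ t ∈ A.filter (fun t => ¬ E < e t), (2 : ℤ) ^ (E - (w + 2)) := by
        refine (Finset.abs_sum_le_sum_abs _ _).trans (Finset.sum_le_sum ?_)
        intro t ht
        obtain ⟨htA, hte⟩ := Finset.mem_filter.mp ht
        by_cases h0 : ε t = 0
        · simp [h0]
        · have h3 : e t + w + 1 < E := by
            by_contra h4
            have := hcon t htA h0 (by omega)
            omega
          rw [abs_mul]
          have h5 : |(2 : ℤ) ^ (e t)| = 2 ^ (e t) := abs_of_nonneg (by positivity)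
          rw [h5]
          calc |ε t| * 2 ^ (e t) ≤ 1 * 2 ^ (e t) :=
                mul_le_mul_of_nonneg_right (hε t htA) (by positivity)
            _ = 2 ^ (e t) := one_mul _
            _ ≤ 2 ^ (E - (w + 2)) := pow_le_pow_right₀ (by norm_num) (by omega)
      rw [Finset.sum_const, nsmul_eq_mul] at h1
      have h2 : ((A.filter (fun t => ¬ E < e t)).card : ℤ) ≤ 2 ^ w := by
        have : (A.filter (fun t => ¬ E < e t)).card ≤ 2 ^ w :=
          (Finset.card_filter_le _ _).trans hcard
        exact_mod_cast this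
      calc |L| * 4 ≤ ((A.filter (fun t => ¬ E < e t)).card * 2 ^ (E - (w + 2))) * 4 := by
            exact mul_le_mul_of_nonneg_right h1 (by norm_num)
        _ ≤ (2 ^ w * 2 ^ (E - (w + 2))) * 4 := by
            exact mul_le_mul_of_nonneg_right
              (mul_le_mul_of_nonneg_right h2 (by positivity)) (by norm_num)
        _ = 2 ^ E := by
            have : (4 : ℤ) = 2 ^ 2 := by norm_num
            rw [this, ← pow_add, ← pow_add]
            congr 1
            omega
  -- Now compute the two bits
  obtain ⟨F, rfl⟩ : ∃ F, E = F + 1 := ⟨E - 1, by omega⟩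
  simp only [Nat.add_sub_cancel]
  obtain ⟨c, hc⟩ := hdvd
  have hP : (0 : ℤ) < 2 ^ F := by positivity
  have hLabs' : |L| * 2 ≤ 2 ^ F := by
    have : (2 : ℤ) ^ (F + 1) = 2 * 2 ^ F := by ring
    rw [this] at hLabs
    linarith
  have hHval : H = 4 * c * 2 ^ F := by
    rw [hc]; ring
  -- k / 2^F
  have key : ((k : ℤ) / 2 ^ F) % 4 = 0 ∨ ((k : ℤ) / 2 ^ F) % 4 = 3 := by
    rcases le_or_gt 0 L with h0 | h0
    · left
      have hL2 : L < 2 ^ F := by
        have := le_abs_self L
        linarith
      have h6 : (k : ℤ) / 2 ^ F = 4 * c := by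
        rw [hsum, hHval, Int.add_comm, Int.add_mul_ediv_right _ _ hP.ne']
        rw [Int.ediv_eq_zero_of_lt h0 hL2]
        ring
      rw [h6]
      simp
    · right
      have hL2 : -(2 ^ F) ≤ L := by
        have := neg_abs_le L
        linarith
      have h6 : (k : ℤ) / 2 ^ F = 4 * c - 1 := by
        rw [hsum, hHval, Int.add_comm, Int.add_mul_ediv_right _ _ hP.ne']
        have : L / 2 ^ F = -1 := by
          have h7 : L = (L + 2 ^ F) + (-1) * 2 ^ F := by ring
          rw [h7, Int.add_mul_ediv_right _ _ hP.ne']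
          rw [Int.ediv_eq_zero_of_lt (by linarith) (by linarith)]
          ring
        rw [this]
        ring
      rw [h6]
      omega
  have key' : (k / 2 ^ F) % 4 = 0 ∨ (k / 2 ^ F) % 4 = 3 := by
    have h8 : (((k / 2 ^ F) % 4 : ℕ) : ℤ) = ((k : ℤ) / 2 ^ F) % 4 := by push_cast; rfl
    rcases key with h | h
    · left
      rw [← h8] at h
      exact_mod_cast h
    · right
      rw [← h8] at h
      exact_mod_cast h
  rw [Nat.testBit_eq_decide_div_mod_eq, Nat.testBit_eq_decide_div_mod_eq]
  have h9 : k / 2 ^ (F + 1) = (k / 2 ^ F) / 2 := by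
    rw [pow_succ, Nat.div_div_eq_div_mul]
  rw [h9]
  congr 1
  apply propext
  omega

/-! ### The combinatorial lemma -/

lemma pigeonhole {s n : ℕ} (M D J : ℕ) (hD : (s + 1) * (2 * s + 1) < D)
    (V : Fin s → Finset (Fin n)) (I : ℕ → Finset (Fin s))
    (hne : ∀ j ∈ Finset.Icc 1 J, (I j).Nonempty)
    (ha : ∀ j ∈ Finset.Icc 1 J, n + D ^ j ≤ ((I j).biUnion V).card + M + 1)
    (hb : ∀ j ∈ Finset.Icc 1 J, ((I j).biUnion V).card + M ≤ n + D ^ j + s)
    (hc : ∀ j ∈ Finset.Icc 1 J, ∀ i ∈ I j, n ≤ M + (V i).card + s) :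
    J ≤ s + s * s := by
  classical
  set X : (Fin s) ⊕ (Fin s × Fin s) → ℕ := fun x =>
    match x with
    | Sum.inl i => (V i).card + M + s - n
    | Sum.inr p => (V p.2 \ V p.1).card with hX
  have hex : ∀ j ∈ Finset.Icc 1 J, ∃ x, D ^ j ≤ (s + 1) * X x ∧ X x ≤ D ^ j + 2 * s := by
    intro j hj
    obtain ⟨i, hi⟩ := hne j hj
    have ha' := ha j hj
    have hb' := hb j hj
    have hc' := hc j hj i hi
    set U := (I j).biUnion V with hU
    have hsub : V i ⊆ U := Finset.subset_biUnion_of_mem V hi
    have hcardsub : (V i).card ≤ U.card := Finset.card_le_card hsub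
    have hs1 : 1 ≤ s := by
      have := i.2; omega
    -- upper bounds
    have hup1 : X (Sum.inl i) ≤ D ^ j + 2 * s := by
      simp only [hX]; omega
    have hup2 : ∀ i' ∈ I j, X (Sum.inr (i, i')) ≤ D ^ j + 2 * s := by
      intro i' hi'
      simp only [hX]
      have h1 : V i' \ V i ⊆ U \ V i :=
        Finset.sdiff_subset_sdiff (Finset.subset_biUnion_of_mem V hi') (le_refl _)
      have h2 := Finset.card_le_card h1
      rw [Finset.card_sdiff_of_subset hsub] at h2
      omega
    -- lower bound for the sum
    have hUle : U.card ≤ (V i).card + ∑ i' ∈ I j, (V i' \ V i).card := by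
      have h1 : U \ V i ⊆ (I j).biUnion (fun i' => V i' \ V i) := by
        intro x hx
        rw [Finset.mem_sdiff, hU, Finset.mem_biUnion] at hx
        obtain ⟨⟨i', hi', hx'⟩, hx2⟩ := hx
        exact Finset.mem_biUnion.mpr ⟨i', hi', Finset.mem_sdiff.mpr ⟨hx', hx2⟩⟩
      have h2 := (Finset.card_le_card h1).trans Finset.card_biUnion_le
      rw [Finset.card_sdiff_of_subset hsub] at h2
      omega
    by_contra hcon
    push Not at hcon
    have hlow1 : (s + 1) * X (Sum.inl i) < D ^ j := by
      by_contra h
      push Not at h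
      have := hcon (Sum.inl i) h
      omega
    have hlow2 : ∀ i' ∈ I j, (s + 1) * X (Sum.inr (i, i')) < D ^ j := by
      intro i' hi'
      by_contra h
      push Not at h
      have h1 := hcon (Sum.inr (i, i')) h
      have h2 := hup2 i' hi'
      omega
    have hsumle : (s + 1) * ∑ i' ∈ I j, (V i' \ V i).card ≤ s * D ^ j := by
      rw [Finset.mul_sum]
      calc ∑ i' ∈ I j, (s + 1) * (V i' \ V i).card ≤ ∑ i' ∈ I j, D ^ j :=
            Finset.sum_le_sum (fun i' hi' => (hlow2 i' hi').le)
        _ = (I j).card * D ^ j := by rw [Finset.sum_const, smul_eq_mul]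
        _ ≤ s * D ^ j := by
            apply Nat.mul_le_mul_right
            calc (I j).card ≤ Fintype.card (Fin s) := Finset.card_le_univ _
              _ = s := Fintype.card_fin s
    have hx1 : X (Sum.inl i) + n = (V i).card + M + s := by
      simp only [hX]; omega
    have htot : D ^ j + n + s ≤ X (Sum.inl i) + ∑ i' ∈ I j, (V i' \ V i).card + n + 1 := by
      omega
    have htot' : D ^ j ≤ X (Sum.inl i) + ∑ i' ∈ I j, (V i' \ V i).card := by omega
    have h3 : (s + 1) * D ^ j ≤ (s + 1) * X (Sum.inl i) +
        (s + 1) * ∑ i' ∈ I j, (V i' \ V i).card := by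
      rw [← Nat.mul_add]
      exact Nat.mul_le_mul_left _ htot'
    have h4 : (s + 1) * D ^ j = s * D ^ j + D ^ j := by ring
    omega
  rcases Nat.eq_zero_or_pos J with hJ0 | hJ0
  · omega
  have hne1 : Nonempty (Fin s ⊕ Fin s × Fin s) := by
    obtain ⟨i, _⟩ := hne 1 (Finset.mem_Icc.mpr ⟨le_refl _, hJ0⟩)
    exact ⟨Sum.inl i⟩
  choose! x hx using hex
  have hinj : Set.InjOn x (Finset.Icc 1 J : Finset ℕ) := by
    have haux : ∀ j ∈ Finset.Icc 1 J, ∀ j' ∈ Finset.Icc 1 J, j < j' → x j ≠ x j' := by
      intro j hj j' hj' hlt heq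
      have h1 := (hx j hj).2
      have h2 := (hx j' hj').1
      rw [← heq] at h2
      have hDpos : 1 ≤ D := by omega
      have h3 : D * D ^ j ≤ D ^ j' := by
        rw [← pow_succ']
        exact Nat.pow_le_pow_right hDpos hlt
      have h4 : 1 ≤ D ^ j := Nat.one_le_pow _ _ hDpos
      have h5 : (s + 1) * X (x j) ≤ (s + 1) * ((2 * s + 1) * D ^ j) := by
        apply Nat.mul_le_mul_left
        calc X (x j) ≤ D ^ j + 2 * s := h1
          _ ≤ (2 * s + 1) * D ^ j := by nlinarith
      have h6 : (s + 1) * ((2 * s + 1) * D ^ j) < D * D ^ j := by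
        rw [← mul_assoc]
        exact Nat.mul_lt_mul_of_pos_right hD (by omega)
      omega
    intro j hj j' hj' heq
    rcases lt_trichotomy j j' with h | h | h
    · exact absurd heq (haux j hj j' hj' h)
    · exact h
    · exact absurd heq.symm (haux j' hj' j hj h)
  have hcard := Finset.card_le_card_of_injOn x (s := Finset.Icc 1 J) (t := Finset.univ)
    (fun _ _ => Finset.mem_univ _) hinj
  rw [Nat.card_Icc, Finset.card_univ, Fintype.card_sum, Fintype.card_prod, Fintype.card_fin] at hcard
  omega

/-! ### Formulas with `s` terms -/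

/-- Variables of a term. -/
def vars {n : ℕ} (T : List (Literal n)) : Finset (Fin n) := (T.map Prod.fst).toFinset

/-- The assignments satisfying all literals of `T`. -/
noncomputable def sat {n : ℕ} (T : List (Literal n)) : Finset (Fin n → Bool) :=
  Finset.univ.filter (fun a => ∀ l ∈ T, a l.1 = l.2)

lemma card_inf {n s : ℕ} (T : Fin s → List (Literal n)) (I : Finset (Fin s)) :
    (I.inf (fun i => sat (T i))).card = 0 ∨
    (I.inf (fun i => sat (T i))).card = 2 ^ (n - (I.biUnion (fun i => vars (T i))).card) := by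
  classical
  rcases Finset.eq_empty_or_nonempty (I.inf (fun i => sat (T i))) with h | ⟨a₀, h₀⟩
  · left; rw [h]; rfl
  · right
    rw [← card_agree _ a₀]
    congr 1
    ext a
    have hmem : ∀ b : Fin n → Bool, b ∈ I.inf (fun i => sat (T i)) ↔
        ∀ i ∈ I, ∀ l ∈ T i, b l.1 = l.2 := by
      intro b
      rw [Finset.mem_inf]
      simp [sat]
    rw [hmem] at h₀ ⊢
    simp only [Finset.mem_filter, Finset.mem_univ, true_and, Finset.mem_biUnion, vars,
      List.mem_toFinset, List.mem_map]
    constructor
    · rintro h v ⟨i, hi, l, hl, rfl⟩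
      rw [h i hi l hl, h₀ i hi l hl]
    · intro h i hi l hl
      rw [h l.1 ⟨i, hi, l, hl, rfl⟩]
      exact h₀ i hi l hl

/-- Number of assignments falsifying all the terms `T i`. -/
noncomputable def N0 {n s : ℕ} (T : Fin s → List (Literal n)) : ℕ :=
  (Finset.univ.inf (fun i => (sat (T i))ᶜ)).card

lemma N0_le {n s : ℕ} (T : Fin s → List (Literal n)) : N0 T ≤ 2 ^ n := by
  unfold N0
  calc _ ≤ (Finset.univ : Finset (Fin n → Bool)).card := Finset.card_le_univ _
    _ = 2 ^ n := by simp

lemma N0_expand {n s : ℕ} (T : Fin s → List (Literal n)) :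
    (N0 T : ℤ) = ∑ t ∈ (Finset.univ : Finset (Fin s)).powerset,
      (if (t.inf (fun i => sat (T i))).card = 0 then 0 else (-1 : ℤ) ^ t.card) *
        2 ^ (n - (t.biUnion (fun i => vars (T i))).card) := by
  unfold N0
  rw [Finset.inclusion_exclusion_card_inf_compl]
  apply Finset.sum_congr rfl
  intro t _
  rcases card_inf T t with h | h
  · simp [h]
  · rw [if_neg]
    · rw [h]; push_cast; rfl
    · rw [h]; positivity

lemma N0_lower {n s : ℕ} (T : Fin s → List (Literal n)) (h : 0 < N0 T) : 2 ^ (n - s) ≤ N0 T := by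
  classical
  unfold N0 at h ⊢
  obtain ⟨a₀, ha₀⟩ := Finset.card_pos.mp h
  rw [Finset.mem_inf] at ha₀
  have h1 : ∀ i : Fin s, ∃ l ∈ T i, a₀ l.1 ≠ l.2 := by
    intro i
    have := ha₀ i (Finset.mem_univ _)
    simp only [sat, Finset.mem_compl, Finset.mem_filter, Finset.mem_univ, true_and] at this
    push Not at this
    exact this
  choose l hl hl2 using h1
  set W : Finset (Fin n) := Finset.univ.image (fun i => (l i).1) with hW
  have hWcard : W.card ≤ s := by
    calc W.card ≤ (Finset.univ : Finset (Fin s)).card := Finset.card_image_le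
      _ = s := by simp
  calc 2 ^ (n - s) ≤ 2 ^ (n - W.card) := Nat.pow_le_pow_right (by norm_num) (by omega)
    _ = (Finset.univ.filter (fun a : Fin n → Bool => ∀ i ∈ W, a i = a₀ i)).card :=
        (card_agree W a₀).symm
    _ ≤ _ := by
        apply Finset.card_le_card
        intro a ha
        simp only [Finset.mem_filter, Finset.mem_univ, true_and] at ha
        rw [Finset.mem_inf]
        intro i _
        simp only [sat, Finset.mem_compl, Finset.mem_filter, Finset.mem_univ, true_and]
        intro hcon
        have h2 := hcon (l i) (hl i)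
        rw [ha _ (Finset.mem_image_of_mem _ (Finset.mem_univ i))] at h2
        exact hl2 i h2

lemma core {n s : ℕ} (T : Fin s → List (Literal n)) (k M D J : ℕ)
    (hD : (s + 1) * (2 * s + 1) < D) (hD3 : 3 ≤ D) (hDM : D ^ J ≤ M)
    (hbits : ∀ j ∈ Finset.Icc 1 J, k.testBit (M - D ^ j) ≠ k.testBit (M + 1 - D ^ j))
    (hkM : k < 2 ^ M) (hkM' : 2 ^ (M - 1) ≤ k)
    (hk : k + N0 T = 2 ^ n ∨ k = N0 T) : J ≤ s + s * s := by
  classical
  have hkn : k ≤ 2 ^ n := by
    rcases hk with h | h
    · omega
    · rw [h]; exact N0_le T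
  have hMn : M ≤ n + 1 := by
    have h1 : 2 ^ (M - 1) ≤ 2 ^ n := hkM'.trans hkn
    have := (Nat.pow_le_pow_iff_right (by norm_num : 1 < 2)).mp h1
    omega
  have hkpos : 0 < k := lt_of_lt_of_le (by positivity) hkM'
  -- window
  have hwin : ∀ j ∈ Finset.Icc 1 J, ∃ I : Finset (Fin s), I.Nonempty ∧
      n + D ^ j ≤ (I.biUnion (fun i => vars (T i))).card + M + 1 ∧
      (I.biUnion (fun i => vars (T i))).card + M ≤ n + D ^ j + s ∧
      ∀ i ∈ I, n ≤ M + (vars (T i)).card + s := by
    intro j hj
    have hjJ := Finset.mem_Icc.mp hj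
    have hDjM : D ^ j ≤ M := le_trans (Nat.pow_le_pow_right (by omega) hjJ.2) hDM
    have hDj : 3 ≤ D ^ j := by
      calc 3 ≤ D := hD3
        _ = D ^ 1 := (pow_one D).symm
        _ ≤ D ^ j := Nat.pow_le_pow_right (by omega) hjJ.1
    have hE : 1 ≤ M + 1 - D ^ j := by omega
    have hbit : k.testBit (M + 1 - D ^ j - 1) ≠ k.testBit (M + 1 - D ^ j) := by
      have : M + 1 - D ^ j - 1 = M - D ^ j := by omega
      rw [this]
      exact hbits j hj
    have hcardP : (Finset.univ : Finset (Fin s)).powerset.card ≤ 2 ^ s := by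
      rw [Finset.card_powerset, Finset.card_univ, Fintype.card_fin]
    have hcardV : ∀ t : Finset (Fin s), (t.biUnion (fun i => vars (T i))).card ≤ n := by
      intro t
      calc _ ≤ (Finset.univ : Finset (Fin n)).card := Finset.card_le_univ _
        _ = n := by simp
    -- from nonempty intersections
    have hsub : ∀ t : Finset (Fin s), (t.inf (fun i => sat (T i))).card ≠ 0 → ∀ i ∈ t,
        (sat (T i)).card = 2 ^ (n - (vars (T i)).card) := by
      intro t ht i hi
      have h1 : ({i} : Finset (Fin s)).inf (fun i => sat (T i)) = sat (T i) := by simp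
      have h2 : ({i} : Finset (Fin s)).biUnion (fun i => vars (T i)) = vars (T i) := by simp
      have h3 := card_inf T {i}
      rw [h1, h2] at h3
      rcases h3 with h3 | h3
      · exfalso
        apply ht
        have : t.inf (fun i => sat (T i)) ≤ sat (T i) := Finset.inf_le hi
        have h4 := Finset.card_le_card this
        omega
      · exact h3
    rcases hk with hk | hk
    · -- DNF case
      have hkZ : (k : ℤ) = ∑ t ∈ (Finset.univ : Finset (Fin s)).powerset,
          (if t = ∅ then 0 else
            -(if (t.inf (fun i => sat (T i))).card = 0 then 0 else (-1 : ℤ) ^ t.card)) *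
            2 ^ (n - (t.biUnion (fun i => vars (T i))).card) := by
        have h1 : (k : ℤ) = 2 ^ n - (N0 T : ℤ) := by
          have : ((k + N0 T : ℕ) : ℤ) = 2 ^ n := by rw [hk]; push_cast; rfl
          push_cast at this
          linarith
        rw [h1, N0_expand]
        have hmem : (∅ : Finset (Fin s)) ∈ (Finset.univ : Finset (Fin s)).powerset := by simp
        rw [← Finset.add_sum_erase _ _ hmem, ← Finset.add_sum_erase _ _ hmem]
        have h2 : (((∅ : Finset (Fin s)).inf (fun i => sat (T i))).card = 0) = False := by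
          simp
        simp only [h2, if_false, Finset.card_empty, pow_zero, one_mul, Finset.biUnion_empty,
          Nat.sub_zero, if_true, zero_mul, zero_add]
        have h3 : ∀ t ∈ (Finset.univ : Finset (Fin s)).powerset.erase ∅,
            (if t = ∅ then 0 else
            -(if (t.inf (fun i => sat (T i))).card = 0 then 0 else (-1 : ℤ) ^ t.card)) *
            2 ^ (n - (t.biUnion (fun i => vars (T i))).card)
            = - ((if (t.inf (fun i => sat (T i))).card = 0 then 0 else (-1 : ℤ) ^ t.card) *
            2 ^ (n - (t.biUnion (fun i => vars (T i))).card)) := by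
          intro t ht
          rw [if_neg (Finset.ne_of_mem_erase ht)]
          ring
        rw [Finset.sum_congr rfl h3, Finset.sum_neg_distrib]
        ring
      obtain ⟨t, _, ht0, ht1, ht2⟩ := boundary k (M + 1 - D ^ j) s hE hbit _ _ _ (by
        intro t _
        split_ifs <;> simp [abs_neg]) hcardP hkZ
      have htne : t ≠ ∅ := by
        intro h; apply ht0; simp [h]
      have htc : (t.inf (fun i => sat (T i))).card ≠ 0 := by
        intro h; apply ht0; simp [h]
      have hVt := hcardV t
      refine ⟨t, Finset.nonempty_iff_ne_empty.mpr htne, by omega, by omega, ?_⟩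
      intro i hi
      have h5 := hsub t htc i hi
      have h6 : (sat (T i)).card ≤ k := by
        have h7 : (sat (T i)).card + N0 T ≤ 2 ^ n := by
          unfold N0
          have hdis : Disjoint (sat (T i)) (Finset.univ.inf (fun i => (sat (T i))ᶜ)) := by
            rw [Finset.disjoint_left]
            intro a ha ha2
            rw [Finset.mem_inf] at ha2
            exact (Finset.mem_compl.mp (ha2 i (Finset.mem_univ _))) ha
          rw [← Finset.card_union_of_disjoint hdis]
          calc _ ≤ (Finset.univ : Finset (Fin n → Bool)).card := Finset.card_le_univ _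
            _ = 2 ^ n := by simp
        omega
      rw [h5] at h6
      have h8 := (Nat.pow_lt_pow_iff_right (by norm_num : 1 < 2)).mp (lt_of_le_of_lt h6 hkM)
      omega
    · -- CNF case
      have hkZ : (k : ℤ) = ∑ t ∈ (Finset.univ : Finset (Fin s)).powerset,
          (if (t.inf (fun i => sat (T i))).card = 0 then 0 else (-1 : ℤ) ^ t.card) *
            2 ^ (n - (t.biUnion (fun i => vars (T i))).card) := by
        rw [hk]; exact N0_expand T
      obtain ⟨t, _, ht0, ht1, ht2⟩ := boundary k (M + 1 - D ^ j) s hE hbit _ _ _ (by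
        intro t _
        split_ifs <;> simp) hcardP hkZ
      have htne : t ≠ ∅ := by
        intro h
        rw [h] at ht2
        simp only [Finset.biUnion_empty, Finset.card_empty, Nat.sub_zero] at ht2
        omega
      have hVt := hcardV t
      refine ⟨t, Finset.nonempty_iff_ne_empty.mpr htne, by omega, by omega, ?_⟩
      intro i hi
      have h6 := N0_lower T (by omega)
      rw [← hk] at h6
      have h8 := (Nat.pow_lt_pow_iff_right (by norm_num : 1 < 2)).mp (lt_of_le_of_lt h6 hkM)
      omega
  choose! I hI1 hI2 hI3 hI4 using hwin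
  exact pigeonhole M D J hD (fun i => vars (T i)) I hI1 hI2 hI3 hI4

/-! ### The numbers -/

/-- The numbers used: with `M = D ^ (2 b - 1)`, bit `i < M` is one iff `log_D (M - i)` is even. -/
def num (D M : ℕ) : ℕ := Nat.ofBits (fun i : Fin M => decide (Even (Nat.log D (M - i.1))))

lemma num_testBit_lt {D M i : ℕ} (h : i < M) :
    (num D M).testBit i = decide (Even (Nat.log D (M - i))) := by
  unfold num
  rw [Nat.testBit_ofBits_lt _ _ h]

lemma num_testBit_ge {D M i : ℕ} (h : M ≤ i) : (num D M).testBit i = false := by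
  unfold num
  rw [Nat.testBit_ofBits_ge _ _ h]

lemma num_lt (D M : ℕ) : num D M < 2 ^ M := Nat.ofBits_lt_two_pow _

lemma num_ge {D M : ℕ} (hM : 1 ≤ M) : 2 ^ (M - 1) ≤ num D M := by
  apply Nat.ge_two_pow_of_testBit
  rw [num_testBit_lt (by omega)]
  have : M - (M - 1) = 1 := by omega
  rw [this]
  simp

lemma log_pow_sub_one {D j : ℕ} (hD : 2 ≤ D) (hj : 1 ≤ j) : Nat.log D (D ^ j - 1) = j - 1 := by
  apply Nat.log_eq_of_pow_le_of_lt_pow
  · have h1 : D ^ (j - 1) < D ^ j := Nat.pow_lt_pow_right (by omega) (by omega)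
    omega
  · have h1 : j - 1 + 1 = j := by omega
    rw [h1]
    have h2 : 0 < D ^ j := by positivity
    omega

lemma num_bits {D M J : ℕ} (hD : 3 ≤ D) (hM : D ^ J ≤ M) :
    ∀ j ∈ Finset.Icc 1 J, (num D M).testBit (M - D ^ j) ≠ (num D M).testBit (M + 1 - D ^ j) := by
  intro j hj
  have hjJ := Finset.mem_Icc.mp hj
  have hDjM : D ^ j ≤ M := le_trans (Nat.pow_le_pow_right (by omega) hjJ.2) hM
  have hDj : 3 ≤ D ^ j := by
    calc 3 ≤ D := hD
      _ = D ^ 1 := (pow_one D).symm
      _ ≤ D ^ j := Nat.pow_le_pow_right (by omega) hjJ.1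
  rw [num_testBit_lt (by omega), num_testBit_lt (by omega)]
  have h1 : M - (M - D ^ j) = D ^ j := by omega
  have h2 : M - (M + 1 - D ^ j) = D ^ j - 1 := by omega
  rw [h1, h2, Nat.log_pow (by omega), log_pow_sub_one (by omega) hjJ.1]
  intro h
  have h3 : Even j ↔ Even (j - 1) := by simpa using h
  obtain ⟨m, rfl⟩ : ∃ m, j = m + 1 := ⟨j - 1, by omega⟩
  simp only [Nat.add_sub_cancel, Nat.even_add_one] at h3
  tauto

lemma num_bl {D b : ℕ} (hD : 3 ≤ D) (hb : 1 ≤ b) : bl (num D (D ^ (2 * b - 1))) = b := by
  set M := D ^ (2 * b - 1) with hM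
  have hDpos : 0 < D := by omega
  have hMpos : 1 ≤ M := Nat.one_le_pow _ _ hDpos
  have hset : {i : ℕ | (num D M).testBit i = true ∧ (num D M).testBit (i + 1) = false}
      = ((Finset.range b).image (fun j => M - D ^ (2 * j)) : Finset ℕ) := by
    ext i
    simp only [Set.mem_ofPred_eq, Finset.coe_image, Set.mem_image, Finset.coe_range, Set.mem_Iio]
    constructor
    · rintro ⟨h1, h2⟩
      have hi : i < M := by
        by_contra h
        rw [num_testBit_ge (by omega)] at h1
        exact absurd h1 (by simp)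
      rw [num_testBit_lt hi] at h1
      have h1' : Even (Nat.log D (M - i)) := by simpa using h1
      obtain ⟨j, hj⟩ := h1'
      have hMi : M - i ≠ 0 := by omega
      have hle : D ^ (2 * j) ≤ M - i := by
        have := Nat.pow_log_le_self D hMi
        rw [hj] at this
        have h3 : j + j = 2 * j := by ring
        rwa [h3] at this
      have heq : M - i = D ^ (2 * j) := by
        rcases Nat.lt_or_ge (i + 1) M with h3 | h3
        · rw [num_testBit_lt h3] at h2
          have h2' : ¬ Even (Nat.log D (M - (i + 1))) := by simpa using h2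
          by_contra hne
          apply h2'
          have h4 : Nat.log D (M - (i + 1)) = 2 * j := by
            apply Nat.log_eq_of_pow_le_of_lt_pow
            · omega
            · have h5 := Nat.lt_pow_succ_log_self (by omega : 1 < D) (M - i)
              rw [hj] at h5
              have h6 : (j + j).succ = 2 * j + 1 := by omega
              rw [h6] at h5
              omega
          rw [h4]
          exact even_two_mul j
        · have h4 : M - i = 1 := by omega
          have h5 : 1 ≤ D ^ (2 * j) := Nat.one_le_pow _ _ hDpos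
          omega
      refine ⟨j, ?_, ?_⟩
      · -- j < b
        have h5 : D ^ (2 * j) ≤ D ^ (2 * b - 1) := by
          rw [← heq]; exact Nat.sub_le _ _
        have h6 := (Nat.pow_le_pow_iff_right (by omega : 1 < D)).mp h5
        omega
      · omega
    · rintro ⟨j, hj, rfl⟩
      have hpos : 1 ≤ D ^ (2 * j) := Nat.one_le_pow _ _ hDpos
      have hle : D ^ (2 * j) ≤ M := Nat.pow_le_pow_right hDpos (by omega)
      constructor
      · rw [num_testBit_lt (by omega)]
        have h1 : M - (M - D ^ (2 * j)) = D ^ (2 * j) := by omega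
        rw [h1, Nat.log_pow (by omega)]
        simp
      · rcases Nat.eq_zero_or_pos j with h0 | h0
        · subst h0
          apply num_testBit_ge
          simp only [Nat.mul_zero, pow_zero]
          omega
        · have hlt : 3 ≤ D ^ (2 * j) := by
            calc 3 ≤ D := hD
              _ = D ^ 1 := (pow_one D).symm
              _ ≤ D ^ (2 * j) := Nat.pow_le_pow_right (by omega) (by omega)
          rw [num_testBit_lt (by omega)]
          have h1 : M - (M - D ^ (2 * j) + 1) = D ^ (2 * j) - 1 := by omega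
          rw [h1, log_pow_sub_one (by omega) (by omega)]
          have h2 : ¬ Even (2 * j - 1) := by
            obtain ⟨m, rfl⟩ : ∃ m, j = m + 1 := ⟨j - 1, by omega⟩
            have : 2 * (m + 1) - 1 = 2 * m + 1 := by omega
            rw [this, Nat.even_add_one]
            simp
          simp [h2]
  unfold bl
  rw [hset, Set.ncard_coe_finset, Finset.card_image_of_injOn, Finset.card_range]
  intro j hj j' hj' h
  simp only [Finset.coe_range, Set.mem_Iio] at hj hj'
  simp only at h
  have hle : D ^ (2 * j) ≤ M := Nat.pow_le_pow_right hDpos (by omega)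
  have hle' : D ^ (2 * j') ≤ M := Nat.pow_le_pow_right hDpos (by omega)
  have heq : D ^ (2 * j) = D ^ (2 * j') := by omega
  have := Nat.pow_right_injective (by omega : 2 ≤ D) heq
  omega

/-! ### From formulas to families of terms -/

lemma dnf_N0 {n : ℕ} (F : List (List (Literal n))) :
    dnfCount F + N0 (fun i : Fin F.length => F.get i) = 2 ^ n := by
  classical
  have h1 : dnfCount F = ((Finset.univ.inf (fun i : Fin F.length => (sat (F.get i))ᶜ))ᶜ).card := by
    unfold dnfCount
    rw [Nat.card_eq_fintype_card, Fintype.card_subtype]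
    congr 1
    ext a
    rw [Finset.mem_filter, Finset.mem_compl, Finset.mem_inf]
    simp only [Finset.mem_filter, Finset.mem_univ, true_and, Finset.mem_compl, sat]
    push Not
    constructor
    · rintro ⟨T, hT, h⟩
      obtain ⟨i, hi⟩ := List.get_of_mem hT
      exact ⟨i, trivial, by rw [hi]; exact h⟩
    · rintro ⟨i, _, h⟩
      exact ⟨F.get i, List.get_mem F i, h⟩
  rw [h1]
  unfold N0
  rw [add_comm, Finset.card_add_card_compl]
  simp

lemma cnf_N0 {n : ℕ} (F : List (List (Literal n))) :
    cnfCount F = N0 (fun i : Fin F.length => (F.get i).map (fun l => (l.1, !l.2))) := by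
  classical
  unfold cnfCount N0
  rw [Nat.card_eq_fintype_card, Fintype.card_subtype]
  congr 1
  ext a
  rw [Finset.mem_filter, Finset.mem_inf]
  simp only [Finset.mem_filter, Finset.mem_univ, true_and, Finset.mem_compl,
    sat, List.mem_map, forall_const]
  constructor
  · intro h i hcon
    obtain ⟨l, hl, hl2⟩ := h (F.get i) (List.get_mem F i)
    have := hcon (l.1, !l.2) ⟨l, hl, rfl⟩
    simp only at this
    have hl3 : a l.1 = l.2 := hl2
    rw [hl3] at this
    simp at this
  · intro h T hT
    obtain ⟨i, hi⟩ := List.get_of_mem hT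
    have h2 := h i
    rw [hi] at h2
    by_contra hcon
    push Not at hcon
    apply h2
    rintro l ⟨l', hl', rfl⟩
    have h3 : ¬ (a l'.1 = l'.2) := hcon l' hl'
    simp only
    cases h4 : a l'.1 <;> cases h5 : l'.2 <;> simp_all

/-- Lower bound: every formula with `num D (D ^ (2 b - 1))` models has at least about `√(2 b)`
terms. -/
lemma lower (b : ℕ) (hb : 1 ≤ b) {n : ℕ} (F : List (List (Literal n)))
    (hF : dnfCount F = num (16 * (b + 1) ^ 2) ((16 * (b + 1) ^ 2) ^ (2 * b - 1)) ∨
      cnfCount F = num (16 * (b + 1) ^ 2) ((16 * (b + 1) ^ 2) ^ (2 * b - 1))) :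
    2 * b - 1 ≤ F.length + F.length * F.length := by
  set D := 16 * (b + 1) ^ 2 with hDdef
  have hD3 : 3 ≤ D := by
    rw [hDdef]; nlinarith
  rcases Nat.lt_or_ge F.length (2 * b - 1) with hs | hs
  swap
  · nlinarith
  have hD : (F.length + 1) * (2 * F.length + 1) < D := by
    have h1 : F.length + 1 ≤ 2 * b := by omega
    have h2 : 2 * F.length + 1 ≤ 4 * b := by omega
    calc (F.length + 1) * (2 * F.length + 1) ≤ (2 * b) * (4 * b) := Nat.mul_le_mul h1 h2
      _ < D := by rw [hDdef]; nlinarith
  have hMpos : 1 ≤ D ^ (2 * b - 1) := Nat.one_le_pow _ _ (by omega)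
  rcases hF with h | h
  · apply core (fun i : Fin F.length => F.get i) (num D (D ^ (2 * b - 1))) (D ^ (2 * b - 1)) D
      (2 * b - 1) hD hD3 (le_refl _) (num_bits hD3 (le_refl _)) (num_lt _ _) (num_ge hMpos)
    left
    rw [← h]
    exact dnf_N0 F
  · apply core (fun i : Fin F.length => (F.get i).map (fun l => (l.1, !l.2)))
      (num D (D ^ (2 * b - 1))) (D ^ (2 * b - 1)) D
      (2 * b - 1) hD hD3 (le_refl _) (num_bits hD3 (le_refl _)) (num_lt _ _) (num_ge hMpos)
    right
    rw [← h]
    exact cnf_N0 F

lemma exists_formula (k : ℕ) (hk : 0 < k) :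
    ∃ (n : ℕ) (F : List (List (Literal n))), F ≠ [] ∧ dnfCount F = k := by
  classical
  have hk2 : k ≤ (Finset.univ : Finset (Fin k → Bool)).card := by
    simp only [Finset.card_univ, Fintype.card_pi, Fintype.card_bool, Finset.prod_const,
      Fintype.card_fin]
    exact (Nat.lt_two_pow_self).le
  obtain ⟨A, -, hA⟩ := Finset.exists_subset_card_eq hk2
  refine ⟨k, A.toList.map (fun a => List.ofFn (fun i => (i, a i))), ?_, ?_⟩
  · intro h
    have : A.toList = [] := by simpa using h
    have h2 : A = ∅ := by simpa using this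
    rw [h2] at hA
    simp at hA
    omega
  · unfold dnfCount
    rw [Nat.card_eq_fintype_card, Fintype.card_subtype]
    refine Eq.trans ?_ hA
    congr 1
    ext a
    rw [Finset.mem_filter]
    simp only [Finset.mem_univ, true_and, List.mem_map, Finset.mem_toList,
      exists_exists_and_eq_and, List.mem_ofFn, LitTrue]
    constructor
    · rintro ⟨a', ha', h⟩
      have : a = a' := by
        funext i
        exact h (i, a' i) ⟨i, rfl⟩
      rw [this]; exact ha'
    · intro ha
      refine ⟨a, ha, ?_⟩
      rintro l ⟨i, rfl⟩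
      rfl

lemma beta_lower (b : ℕ) (hb : 1 ≤ b) :
    2 * b - 1 ≤ beta (num (16 * (b + 1) ^ 2) ((16 * (b + 1) ^ 2) ^ (2 * b - 1))) +
      beta (num (16 * (b + 1) ^ 2) ((16 * (b + 1) ^ 2) ^ (2 * b - 1))) *
      beta (num (16 * (b + 1) ^ 2) ((16 * (b + 1) ^ 2) ^ (2 * b - 1))) := by
  set k := num (16 * (b + 1) ^ 2) ((16 * (b + 1) ^ 2) ^ (2 * b - 1)) with hk
  have hpos : 0 < k := by
    have h1 : 1 ≤ (16 * (b + 1) ^ 2) ^ (2 * b - 1) := Nat.one_le_pow _ _ (by positivity)
    have h2 : 2 ^ ((16 * (b + 1) ^ 2) ^ (2 * b - 1) - 1) ≤ k := num_ge h1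
    exact lt_of_lt_of_le (by positivity) h2
  have hne : {s : ℕ | ∃ (n : ℕ) (F : List (List (Literal n))),
    F ≠ [] ∧ F.length = s ∧ (dnfCount F = k ∨ cnfCount F = k)}.Nonempty := by
    obtain ⟨n, F, hF1, hF2⟩ := exists_formula k hpos
    exact ⟨F.length, n, F, hF1, rfl, Or.inl hF2⟩
  obtain ⟨n, F, _, hlen, hF⟩ := Nat.sInf_mem hne
  have h := lower b hb F hF
  rw [hlen] at h
  exact h

/-- There are no constant `C` and polynomial `f` with `beta k ≤ C * f (log₂ (bl k))` for every
positive integer `k`. -/
theorem result : ¬ ∃ (C : ℝ) (f : Polynomial ℝ), ∀ k : ℕ, 0 < k →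
    (beta k : ℝ) ≤ C * f.eval (Real.logb 2 (bl k)) := by
  rintro ⟨C, f, h⟩
  -- the polynomial `q = C f` and `p = q ^ 2 + q`
  set q : Polynomial ℝ := Polynomial.C C * f with hq
  set p : Polynomial ℝ := q * q + q with hp
  have hmain : ∀ t : ℕ, (2 : ℝ) ^ t ≤ p.eval (t : ℝ) := by
    intro t
    have hb : 1 ≤ 2 ^ t := Nat.one_le_two_pow
    set b := 2 ^ t with hbdef
    set k := num (16 * (b + 1) ^ 2) ((16 * (b + 1) ^ 2) ^ (2 * b - 1)) with hk
    have hpos : 0 < k := by
      have h1 : 1 ≤ (16 * (b + 1) ^ 2) ^ (2 * b - 1) := Nat.one_le_pow _ _ (by positivity)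
      have h2 : 2 ^ ((16 * (b + 1) ^ 2) ^ (2 * b - 1) - 1) ≤ k := num_ge h1
      exact lt_of_lt_of_le (by positivity) h2
    have hbl : bl k = b := num_bl (by nlinarith) hb
    have h1 := h k hpos
    have hlog : Real.logb 2 (bl k) = t := by
      rw [hbl, hbdef]
      push_cast
      rw [Real.logb_pow, Real.logb_self_eq_one (by norm_num)]
      ring
    rw [hlog] at h1
    have h2 : (beta k : ℝ) ≤ q.eval (t : ℝ) := by
      rw [hq, Polynomial.eval_mul, Polynomial.eval_C]
      exact h1
    have h3 := beta_lower b hb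
    rw [← hk] at h3
    have h4 : b ≤ beta k + beta k * beta k := by omega
    have h5 : (b : ℝ) ≤ (beta k : ℝ) + (beta k : ℝ) * (beta k : ℝ) := by exact_mod_cast h4
    have h6 : (0 : ℝ) ≤ beta k := Nat.cast_nonneg _
    have h7 : (b : ℝ) = 2 ^ t := by rw [hbdef]; push_cast; rfl
    rw [← h7, hp, Polynomial.eval_add, Polynomial.eval_mul]
    nlinarith
  -- contradiction with growth
  have hlog2 : 0 < Real.log 2 := Real.log_pos (by norm_num)
  set r : Polynomial ℝ := p.comp (Polynomial.C (1 / Real.log 2) * Polynomial.X) with hr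
  have htend := r.tendsto_div_exp_atTop
  have hseq : Filter.Tendsto (fun t : ℕ => (t : ℝ) * Real.log 2) Filter.atTop Filter.atTop :=
    Filter.Tendsto.atTop_mul_const hlog2 tendsto_natCast_atTop_atTop
  have h1 := htend.comp hseq
  have h2 : ∀ t : ℕ, (1 : ℝ) ≤ ((fun x => Polynomial.eval x r / Real.exp x) ∘
      (fun t : ℕ => (t : ℝ) * Real.log 2)) t := by
    intro t
    simp only [Function.comp_apply]
    have h3 : Polynomial.eval ((t : ℝ) * Real.log 2) r = p.eval (t : ℝ) := by
      rw [hr, Polynomial.eval_comp]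
      congr 1
      simp only [Polynomial.eval_mul, Polynomial.eval_C, Polynomial.eval_X]
      field_simp
    have h4 : Real.exp ((t : ℝ) * Real.log 2) = 2 ^ t := by
      rw [mul_comm, Real.exp_mul, Real.exp_log (by norm_num), Real.rpow_natCast]
    rw [h3, h4, le_div_iff₀ (by positivity), one_mul]
    exact hmain t
  have h3 := ge_of_tendsto' h1 h2
  norm_num at h3

end Pool.Agent.Results.MP_94c5d9_co.NotPolylog
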